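import Mathlib
import Pool.Agent.KS6_9.YG.Data

/-!
# Infinite families of Young graphs with the same digraph and different pivot nodes

For `g ≥ k²` the graph `H(g,k)` depends only on the residue of `g` modulo `k² - 1`. Hence the
underlying digraph does not determine a Young graph for two doubly infinite families of pairs: in the
first the numbers of even pivot nodes differ (and those of odd pivot nodes agree), in the second the
numbers of odd pivot nodes differ (and those of even pivot nodes agree).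
-/

set_option autoImplicit false

namespace Pool.Agent.Results.MP_5fcb94_co.InfiniteFamilies

open Relation
open Pool.Agent.Results.MP_5fcb94_co.YoungPivots
open Pool.Agent.KS6_9.YG.Desc Pool.Agent.KS6_9.YG.Data

/-- the number of even pivot nodes of the `(g,k)` Young graph -/
noncomputable def numEven (g k : ℕ) : ℕ := Nat.card {v : Node k // EvenPivot g k v}

/-- the number of odd pivot nodes of the `(g,k)` Young graph -/
noncomputable def numOdd (g k : ℕ) : ℕ := Nat.card {v : Node k // OddPivot g k v}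

theorem facts {n : ℕ} {T : Fin (n + 1) → List (Fin (n + 1))} {g k : ℕ}
    {p : Fin (n + 1) → Node k} {D : List (Node k)} (h : Descr T g k p D) (hT : Good T)
    (e o : ℕ)
    (hlast : p (Fin.last n) ≠ .start ∧ (p (Fin.last n)).fst = (p (Fin.last n)).snd)
    (hex : ∃ i, (p i ≠ .start ∧ ∃ j ∈ T i, p j = swap (p i)) ∧ ¬ ((p i).fst = 0 ∧ (p i).snd = 0))
    (he : (Finset.univ.filter fun i => p i ≠ .start ∧ (p i).fst = (p i).snd).card = e)
    (ho : (Finset.univ.filter fun i => p i ≠ .start ∧ ∃ j ∈ T i, p j = swap (p i)).card = o) :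
    YoungExists g k ∧ Nonempty ((fun a b : Fin (n + 1) => b ∈ T a) ≃r YoungAdj g k) ∧
      numEven g k = e ∧ numOdd g k = o := by
  refine ⟨?_, ?_, ?_, ?_⟩
  · obtain ⟨i, hi, hi'⟩ := hex
    exact ⟨p i, Or.inr ((h.odd_iff hT _).2 ⟨i, hi, rfl⟩), hi'⟩
  · exact h.iso hT (Or.inl ((h.even_iff hT _).2 ⟨_, hlast, rfl⟩))
  · rw [← he]
    exact Descr.card_of h.inj (h.even_iff hT)
  · rw [← ho]
    exact Descr.card_of h.inj (h.odd_iff hT)

theorem fA1 (m : ℕ) : YoungExists (967 + 728 * m) 27 ∧
    Nonempty ((fun a b : Fin 14 => b ∈ TA a) ≃r YoungAdj (967 + 728 * m) 27) ∧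
      numEven (967 + 728 * m) 27 = 1 ∧ numOdd (967 + 728 * m) 27 = 2 := by
  have h := dA1.per (by norm_num) (by norm_num) m
  rw [show 967 + m * (27 ^ 2 - 1) = 967 + 728 * m by ring] at h
  exact facts h goodA 1 2 (by decide +kernel) (by decide +kernel) (by decide +kernel)
    (by decide +kernel)

theorem fA2 (m : ℕ) : YoungExists (6183 + 5040 * m) 71 ∧
    Nonempty ((fun a b : Fin 14 => b ∈ TA a) ≃r YoungAdj (6183 + 5040 * m) 71) ∧
      numEven (6183 + 5040 * m) 71 = 3 ∧ numOdd (6183 + 5040 * m) 71 = 2 := by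
  have h := dA2.per (by norm_num) (by norm_num) m
  rw [show 6183 + m * (71 ^ 2 - 1) = 6183 + 5040 * m by ring] at h
  exact facts h goodA 3 2 (by decide +kernel) (by decide +kernel) (by decide +kernel)
    (by decide +kernel)

theorem fB1 (m : ℕ) : YoungExists (962 + 528 * m) 23 ∧
    Nonempty ((fun a b : Fin 16 => b ∈ TB a) ≃r YoungAdj (962 + 528 * m) 23) ∧
      numEven (962 + 528 * m) 23 = 1 ∧ numOdd (962 + 528 * m) 23 = 2 := by
  have h := dB1.per (by norm_num) (by norm_num) m
  rw [show 962 + m * (23 ^ 2 - 1) = 962 + 528 * m by ring] at h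
  exact facts h goodB 1 2 (by decide +kernel) (by decide +kernel) (by decide +kernel)
    (by decide +kernel)

theorem fB2 (m : ℕ) : YoungExists (4209 + 2600 * m) 51 ∧
    Nonempty ((fun a b : Fin 16 => b ∈ TB a) ≃r YoungAdj (4209 + 2600 * m) 51) ∧
      numEven (4209 + 2600 * m) 51 = 1 ∧ numOdd (4209 + 2600 * m) 51 = 4 := by
  have h := dB2.per (by norm_num) (by norm_num) m
  rw [show 4209 + m * (51 ^ 2 - 1) = 4209 + 2600 * m by ring] at h
  exact facts h goodB 1 4 (by decide +kernel) (by decide +kernel) (by decide +kernel)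
    (by decide +kernel)

/-- (1) For `g ≥ k²` the edges of `H(g,k)`, hence the Young graph and its pivot nodes, depend only
on `g` modulo `k² - 1`.
(2) For all `m`, `m'` the `(967 + 728m, 27)` and `(6183 + 5040m', 71)` Young graphs exist, have
isomorphic underlying digraphs and the same number of odd pivot nodes, but `1` and `3` even pivot
nodes.
(3) For all `m`, `m'` the `(962 + 528m, 23)` and `(4209 + 2600m', 51)` Young graphs exist, have
isomorphic underlying digraphs and the same number of even pivot nodes, but `2` and `4` odd pivot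
nodes. -/
theorem result :
    (∀ g k m : ℕ, 2 ≤ k → k ^ 2 ≤ g → Edge (g + m * (k ^ 2 - 1)) k = Edge g k) ∧
    (∀ m m' : ℕ,
      YoungExists (967 + 728 * m) 27 ∧ YoungExists (6183 + 5040 * m') 71 ∧
      DigraphIso (967 + 728 * m) 27 (6183 + 5040 * m') 71 ∧
      ¬ YoungIso (967 + 728 * m) 27 (6183 + 5040 * m') 71 ∧
      numEven (967 + 728 * m) 27 = 1 ∧ numEven (6183 + 5040 * m') 71 = 3 ∧
      numOdd (967 + 728 * m) 27 = 2 ∧ numOdd (6183 + 5040 * m') 71 = 2) ∧
    (∀ m m' : ℕ,
      YoungExists (962 + 528 * m) 23 ∧ YoungExists (4209 + 2600 * m') 51 ∧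
      DigraphIso (962 + 528 * m) 23 (4209 + 2600 * m') 51 ∧
      ¬ YoungIso (962 + 528 * m) 23 (4209 + 2600 * m') 51 ∧
      numEven (962 + 528 * m) 23 = 1 ∧ numEven (4209 + 2600 * m') 51 = 1 ∧
      numOdd (962 + 528 * m) 23 = 2 ∧ numOdd (4209 + 2600 * m') 51 = 4) := by
  refine ⟨fun g k m hk hg => Pool.Agent.KS6_9.YG.Per.edge_per hk hg m, fun m m' => ?_,
    fun m m' => ?_⟩
  · obtain ⟨h1, ⟨i1⟩, h2, h3⟩ := fA1 m
    obtain ⟨h1', ⟨i1'⟩, h2', h3'⟩ := fA2 m'
    refine ⟨h1, h1', ⟨i1.symm.trans i1'⟩, fun h => ?_, h2, h2', h3, h3'⟩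
    have := (card_eq h).1
    change numEven _ _ = numEven _ _ at this
    rw [h2, h2'] at this
    omega
  · obtain ⟨h1, ⟨i1⟩, h2, h3⟩ := fB1 m
    obtain ⟨h1', ⟨i1'⟩, h2', h3'⟩ := fB2 m'
    refine ⟨h1, h1', ⟨i1.symm.trans i1'⟩, fun h => ?_, h2, h2', h3, h3'⟩
    have := (card_eq h).2
    change numOdd _ _ = numOdd _ _ at this
    rw [h3, h3'] at this
    omega

end Pool.Agent.Results.MP_5fcb94_co.InfiniteFamilies
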